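import Pool.Agent.K4H58.XK.Spec

open Finset

namespace Pool.Agent.K4H67.XK

section abstract

/-- a family of pairs indexed by a type with the cross condition gives a set of pairs -/
theorem family_to_set {n k : ℕ} (hk : 1 ≤ k) {I : Type} [Fintype I] (X Y : I → Finset (Fin n))
    (hX : ∀ i, (X i).card = k) (hY : ∀ i, (Y i).card = k)
    (h : ∀ i j, i ≠ j → (Disjoint (X i) (X j) ↔ ¬ Disjoint (Y i) (Y j))) :
    ∃ F : Finset (Finset (Fin n) × Finset (Fin n)), (∀ p ∈ F, p.1.card = k ∧ p.2.card = k) ∧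
      (∀ p ∈ F, ∀ q ∈ F, p ≠ q → (Disjoint p.1 q.1 ↔ ¬ Disjoint p.2 q.2)) ∧
      F.card = Fintype.card I := by
  classical
  have hne : ∀ s : Finset (Fin n), s.card = k → ¬ Disjoint s s := by
    intro s hs hd
    rw [disjoint_self, Finset.bot_eq_empty] at hd
    rw [hd, Finset.card_empty] at hs
    omega
  have hinj : Function.Injective fun i => (X i, Y i) := by
    intro i j hij
    by_contra hne'
    have h1 : X i = X j := congrArg Prod.fst hij
    have h2 : Y i = Y j := congrArg Prod.snd hij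
    have h3 := h i j hne'
    rw [← h1, ← h2] at h3
    exact hne _ (hX i) (h3.2 (hne _ (hY i)))
  refine ⟨Finset.univ.image fun i => (X i, Y i), ?_, ?_, ?_⟩
  · intro p hp
    obtain ⟨i, -, rfl⟩ := Finset.mem_image.1 hp
    exact ⟨hX i, hY i⟩
  · intro p hp q hq hpq
    obtain ⟨i, -, rfl⟩ := Finset.mem_image.1 hp
    obtain ⟨j, -, rfl⟩ := Finset.mem_image.1 hq
    exact h i j fun hij => hpq (by rw [hij])
  · rw [Finset.card_image_of_injective _ hinj, Finset.card_univ]

end abstract

section construction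

variable {k : ℕ}

/-- the `k`-subsets of `[2k]` which contain the point `a` -/
def P0 (k : ℕ) (a : Fin (2 * k)) : Finset (Finset (Fin (2 * k))) :=
  ((Finset.univ : Finset (Fin (2 * k))).powersetCard k).filter (a ∈ ·)

theorem mem_P0 {a : Fin (2 * k)} {s : Finset (Fin (2 * k))} :
    s ∈ P0 k a ↔ s.card = k ∧ a ∈ s := by
  unfold P0
  rw [Finset.mem_filter, Finset.mem_powersetCard]
  exact ⟨fun h => ⟨h.1.2, h.2⟩, fun h => ⟨⟨Finset.subset_univ _, h.1⟩, h.2⟩⟩

theorem card_P0 (a : Fin (2 * k)) : 2 * (P0 k a).card = (2 * k).choose k := by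
  classical
  have h1 : ((Finset.univ : Finset (Fin (2 * k))).powersetCard k).card = (2 * k).choose k := by
    rw [Finset.card_powersetCard, Finset.card_univ, Fintype.card_fin]
  have h2 := Finset.card_filter_add_card_filter_not
    (s := (Finset.univ : Finset (Fin (2 * k))).powersetCard k) (fun s => a ∈ s)
  have h3 : (((Finset.univ : Finset (Fin (2 * k))).powersetCard k).filter fun s => ¬ a ∈ s).card =
      (P0 k a).card := by
    refine Finset.card_bij (fun s _ => sᶜ) ?_ ?_ ?_
    · intro s hs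
      rw [Finset.mem_filter, Finset.mem_powersetCard] at hs
      rw [mem_P0, Finset.card_compl, Fintype.card_fin, hs.1.2, Finset.mem_compl]
      exact ⟨by omega, hs.2⟩
    · intro s _ t _ hst
      exact compl_injective hst
    · intro s hs
      rw [mem_P0] at hs
      refine ⟨sᶜ, ?_, compl_compl s⟩
      rw [Finset.mem_filter, Finset.mem_powersetCard, Finset.card_compl, Fintype.card_fin, hs.1,
        Finset.mem_compl, not_not]
      exact ⟨⟨Finset.subset_univ _, by omega⟩, hs.2⟩
  unfold P0 at h3 ⊢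
  omega

/-- the set or its complement -/
def sg (s : Finset (Fin (2 * k))) (b : Bool) : Finset (Fin (2 * k)) := if b then sᶜ else s

theorem card_sg {s : Finset (Fin (2 * k))} (hs : s.card = k) (b : Bool) : (sg s b).card = k := by
  unfold sg
  split
  · rw [Finset.card_compl, Fintype.card_fin, hs]
    omega
  · exact hs

theorem disjoint_iff_compl {s t : Finset (Fin (2 * k))} (hs : s.card = k) (ht : t.card = k) :
    Disjoint s t ↔ t = sᶜ := by
  constructor
  · intro h
    refine Finset.eq_of_subset_of_card_le ?_ ?_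
    · intro x hx
      rw [Finset.mem_compl]
      exact fun hx' => (Finset.disjoint_left.1 h hx') hx
    · rw [Finset.card_compl, Fintype.card_fin, hs, ht]
      omega
  · rintro rfl
    exact disjoint_compl_right

theorem disjoint_sg {a : Fin (2 * k)} {s t : Finset (Fin (2 * k))} (hs : s ∈ P0 k a)
    (ht : t ∈ P0 k a) (b b' : Bool) : Disjoint (sg s b) (sg t b') ↔ s = t ∧ b ≠ b' := by
  rw [mem_P0] at hs ht
  rw [disjoint_iff_compl (card_sg hs.1 b) (card_sg ht.1 b')]
  have ha : ∀ {u : Finset (Fin (2 * k))} (c : Bool), a ∈ u → (a ∈ sg u c ↔ c = false) := by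
    intro u c hu
    cases c
    · simp [sg, hu]
    · simp [sg, hu]
  constructor
  · intro h
    have h1 : b ≠ b' := by
      rintro rfl
      have h2 : a ∈ sg t b ↔ a ∈ (sg s b)ᶜ := by rw [h]
      rw [Finset.mem_compl, ha b ht.2, ha b hs.2] at h2
      tauto
    refine ⟨?_, h1⟩
    cases b <;> cases b' <;> simp [sg] at h h1 ⊢
    · exact h.symm
    · exact h.symm
  · rintro ⟨rfl, h⟩
    cases b <;> cases b' <;> simp [sg] at h ⊢

/-- the ground set of the first coordinates: grids, and blocks -/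
abbrev Gd (T : Type) (k q : ℕ) : Type := (T × Fin k × Fin k) ⊕ (Fin q × Fin k)

/-- the indices -/
abbrev Ix (T : Type) (k q : ℕ) : Type := (T × Bool × Fin k) ⊕ Fin q

/-- rows, columns and blocks -/
def X0 {T : Type} [DecidableEq T] {k q : ℕ} : Ix T k q → Finset (Gd T k q)
  | .inl (t, false, r) => Finset.univ.image fun c : Fin k => Sum.inl (t, r, c)
  | .inl (t, true, c) => Finset.univ.image fun r : Fin k => Sum.inl (t, r, c)
  | .inr j => Finset.univ.image fun l : Fin k => Sum.inr (j, l)

theorem card_X0 {T : Type} [DecidableEq T] {k q : ℕ} (i : Ix T k q) : (X0 i).card = k := by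
  rcases i with ⟨t, (_ | _), r⟩ | j
  · rw [X0, Finset.card_image_of_injective, Finset.card_univ, Fintype.card_fin]
    intro c c' h
    simpa using h
  · rw [X0, Finset.card_image_of_injective, Finset.card_univ, Fintype.card_fin]
    intro c c' h
    simpa using h
  · rw [X0, Finset.card_image_of_injective, Finset.card_univ, Fintype.card_fin]
    intro c c' h
    simpa using h

theorem disj_grid {T : Type} [DecidableEq T] {k q : ℕ} (t t' : T) (b b' : Bool) (r r' : Fin k)
    (h : ¬ (t = t' ∧ b = b' ∧ r = r')) :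
    Disjoint (X0 (Sum.inl (t, b, r) : Ix T k q)) (X0 (Sum.inl (t', b', r') : Ix T k q)) ↔
      ¬ (t = t' ∧ b ≠ b') := by
  rw [Finset.disjoint_left]
  cases b <;> cases b'
  · constructor
    · intro _ h2
      exact h2.2 rfl
    · intro _ x hx hx'
      simp only [X0, Finset.mem_image, Finset.mem_univ, true_and] at hx hx'
      obtain ⟨c, rfl⟩ := hx
      obtain ⟨c', h3⟩ := hx'
      simp only [Sum.inl.injEq, Prod.mk.injEq] at h3
      exact h ⟨h3.1.symm, rfl, h3.2.1.symm⟩
  · constructor
    · rintro h1 ⟨rfl, _⟩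
      exact h1 (a := Sum.inl (t, r, r')) (by simp [X0]) (by simp [X0])
    · intro h1 x hx hx'
      simp only [X0, Finset.mem_image, Finset.mem_univ, true_and] at hx hx'
      obtain ⟨c, rfl⟩ := hx
      obtain ⟨c', h3⟩ := hx'
      simp only [Sum.inl.injEq, Prod.mk.injEq] at h3
      exact h1 ⟨h3.1.symm, by decide⟩
  · constructor
    · rintro h1 ⟨rfl, _⟩
      exact h1 (a := Sum.inl (t, r', r)) (by simp [X0]) (by simp [X0])
    · intro h1 x hx hx'
      simp only [X0, Finset.mem_image, Finset.mem_univ, true_and] at hx hx'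
      obtain ⟨c, rfl⟩ := hx
      obtain ⟨c', h3⟩ := hx'
      simp only [Sum.inl.injEq, Prod.mk.injEq] at h3
      exact h1 ⟨h3.1.symm, by decide⟩
  · constructor
    · intro _ h2
      exact h2.2 rfl
    · intro _ x hx hx'
      simp only [X0, Finset.mem_image, Finset.mem_univ, true_and] at hx hx'
      obtain ⟨c, rfl⟩ := hx
      obtain ⟨c', h3⟩ := hx'
      simp only [Sum.inl.injEq, Prod.mk.injEq] at h3
      exact h ⟨h3.1.symm, rfl, h3.2.2.symm⟩

theorem disj_mixed {T : Type} [DecidableEq T] {k q : ℕ} (t : T) (b : Bool) (r : Fin k) (j : Fin q) :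
    Disjoint (X0 (Sum.inl (t, b, r) : Ix T k q)) (X0 (Sum.inr j : Ix T k q)) := by
  rw [Finset.disjoint_left]
  intro x hx hx'
  cases b <;> simp only [X0, Finset.mem_image, Finset.mem_univ, true_and] at hx hx' <;>
    obtain ⟨c, rfl⟩ := hx <;> obtain ⟨c', h3⟩ := hx' <;> exact absurd h3 (by simp)

theorem disj_block {T : Type} [DecidableEq T] {k q : ℕ} {j j' : Fin q} (h : j ≠ j') :
    Disjoint (X0 (Sum.inr j : Ix T k q)) (X0 (Sum.inr j' : Ix T k q)) := by
  rw [Finset.disjoint_left]
  intro x hx hx'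
  simp only [X0, Finset.mem_image, Finset.mem_univ, true_and] at hx hx'
  obtain ⟨c, rfl⟩ := hx
  obtain ⟨c', h3⟩ := hx'
  simp only [Sum.inr.injEq, Prod.mk.injEq] at h3
  exact h h3.1.symm

end construction

end Pool.Agent.K4H67.XK

namespace Pool.Agent.K4H58.XK

open Pool.Agent.K4H67.XK

/-- PIECE J: the lower bound.  Let Y0 be a k-subset of [2k] with 0 ∈ Y0.  Ground set of the X's: for every k-subset T ∋ 0,
T ≠ Y0, of [2k] (there are C(2k,k)/2 - 1 of them) a k×k grid, and the rest.  Indices: (S, r) with S a k-subset of [2k],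
S ≠ Y0, S ≠ Y0ᶜ, r < k: Y = S, X = the r-th row of the grid of S if 0 ∈ S, the r-th column of the grid of Sᶜ if 0 ∉ S;
and n/k - k (C(2k,k)/2 - 1) indices with Y = Y0 and pairwise disjoint X's in the rest. -/
theorem lower_bound {k : ℕ} (hk : 1 ≤ k) : ∃ n0 : ℕ, ∀ n : ℕ, n0 ≤ n →
    ∃ F : Finset (Finset (Fin n) × Finset (Fin n)), (∀ p ∈ F, p.1.card = k ∧ p.2.card = k) ∧
      (∀ p ∈ F, ∀ q ∈ F, p ≠ q → (Disjoint p.1 q.1 ↔ ¬ Disjoint p.2 q.2)) ∧
      F.card = n / k + (k * (2 * k).choose k / 2 - k) := by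
  classical
  let a : Fin (2 * k) := ⟨0, by omega⟩
  have hcard := card_P0 a
  have hpos : 0 < (P0 k a).card := by
    have := Nat.choose_pos (show k ≤ 2 * k by omega)
    omega
  obtain ⟨Y0, hY0⟩ := Finset.card_pos.1 hpos
  obtain ⟨M, hM⟩ : ∃ M, M = (P0 k a).card - 1 := ⟨_, rfl⟩
  have hT : ((P0 k a).erase Y0).card = M := by rw [Finset.card_erase_of_mem hY0, hM]
  refine ⟨2 * k + k * (k * M), fun n hn => ?_⟩
  obtain ⟨q, hq⟩ : ∃ q, q + k * M = n / k := by
    have h1 : k * M ≤ n / k := by
      rw [Nat.le_div_iff_mul_le (by omega)]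
      have : k * M * k = k * (k * M) := by ring
      omega
    exact ⟨n / k - k * M, by omega⟩
  let T : Type := ((P0 k a).erase Y0 : Finset (Finset (Fin (2 * k))))
  have hTc : Fintype.card T = M := by rw [← hT]; exact Fintype.card_coe _
  have hG : Fintype.card (Gd T k q) ≤ Fintype.card (Fin n) := by
    simp only [Fintype.card_sum, Fintype.card_prod, Fintype.card_fin, hTc]
    have h1 : k * (n / k) ≤ n := Nat.mul_div_le n k
    rw [← hq] at h1
    nlinarith
  obtain ⟨e⟩ := Function.Embedding.nonempty_of_card_le hG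
  obtain ⟨e'⟩ := Function.Embedding.nonempty_of_card_le
    (show Fintype.card (Fin (2 * k)) ≤ Fintype.card (Fin n) by
      rw [Fintype.card_fin, Fintype.card_fin]; omega)
  let Y1 : Ix T k q → Finset (Fin (2 * k)) := fun i => match i with
    | .inl (t, b, _) => sg t.1 b
    | .inr _ => Y0
  have htP : ∀ t : T, t.1 ∈ P0 k a := fun t => Finset.mem_of_mem_erase t.2
  have htY : ∀ t : T, t.1 ≠ Y0 := fun t => Finset.ne_of_mem_erase t.2
  have hY1 : ∀ i, (Y1 i).card = k := by
    rintro (⟨t, b, r⟩ | j)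
    · exact card_sg (mem_P0.1 (htP t)).1 b
    · exact (mem_P0.1 hY0).1
  have h00 : ¬ Disjoint Y0 Y0 := by
    rw [disjoint_self, Finset.bot_eq_empty]
    intro h
    have := (mem_P0.1 hY0).1
    rw [h, Finset.card_empty] at this
    omega
  have ht0 : ∀ (t : T) (b : Bool), ¬ Disjoint (sg t.1 b) Y0 := by
    intro t b h
    have h1 := (disjoint_sg (htP t) hY0 b false).1 h
    exact htY t h1.1
  have hcross : ∀ i j : Ix T k q, i ≠ j → (Disjoint (X0 i) (X0 j) ↔ ¬ Disjoint (Y1 i) (Y1 j)) := by
    rintro (⟨t, b, r⟩ | j) (⟨t', b', r'⟩ | j') hij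
    · rw [disj_grid t t' b b' r r' (fun h => hij (by rw [h.1, h.2.1, h.2.2]))]
      refine not_congr ?_
      refine Iff.trans ?_ (disjoint_sg (htP t) (htP t') b b').symm
      exact and_congr_left fun _ => ⟨fun h => by rw [h], fun h => Subtype.ext h⟩
    · exact iff_of_true (disj_mixed t b r j') (ht0 t b)
    · refine iff_of_true (disj_mixed t' b' r' j).symm fun h => ht0 t' b' h.symm
    · exact iff_of_true (disj_block fun h => hij (by rw [h])) h00
  obtain ⟨F, h1, h2, h3⟩ := family_to_set hk (fun i => (X0 i).map e) (fun i => (Y1 i).map e')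
    (fun i => by rw [Finset.card_map]; exact card_X0 i) (fun i => by rw [Finset.card_map]; exact hY1 i)
    (fun i j hij => by
      rw [Finset.disjoint_map, Finset.disjoint_map]
      exact hcross i j hij)
  refine ⟨F, h1, h2, h3.trans ?_⟩
  simp only [Fintype.card_sum, Fintype.card_prod, Fintype.card_fin, Fintype.card_bool, hTc]
  have h4 : k * (2 * k).choose k / 2 = k * (P0 k a).card := by
    rw [← hcard]
    have : k * (2 * (P0 k a).card) = 2 * (k * (P0 k a).card) := by ring
    rw [this, Nat.mul_div_cancel_left _ (by norm_num)]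
  rw [h4, ← hq, hM]
  obtain ⟨c, hc⟩ : ∃ c, (P0 k a).card = c + 1 := ⟨(P0 k a).card - 1, by omega⟩
  rw [hc]
  have h5 : k * (c + 1) - k = k * c := by
    rw [mul_add, mul_one, Nat.add_sub_cancel]
  rw [h5]
  simp only [Nat.add_sub_cancel]
  ring

end Pool.Agent.K4H58.XK
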